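import Pool.Agent.R138.OmFin

/-!
# MP_c821f2_co: a connected Euclidean oriented matroid with an element adjacent to few mutations

There is a connected simple Euclidean oriented matroid of rank 7 on 10 elements with an element
that is adjacent to fewer than 7 mutations.
-/

namespace Pool.Agent.Results.MP_c821f2_co.FewMutations

open Pool.Agent.R138.Om

section defs

variable {E : Type*}

/-- `I` is independent in the underlying matroid of the oriented matroid with covectors `L`:
for every `e ∈ I` some covector vanishes on `I \ {e}` but not at `e`. -/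
def Indep (L : Set (E → SignType)) (I : Finset E) : Prop :=
  ∀ e ∈ I, ∃ X ∈ L, X e ≠ 0 ∧ ∀ f ∈ I, f ≠ e → X f = 0

/-- the rank is `r`: the largest independent sets have `r` elements -/
def HasRank (L : Set (E → SignType)) (r : ℕ) : Prop :=
  (∃ I, Indep L I ∧ I.card = r) ∧ ∀ I, Indep L I → I.card ≤ r

/-- no loops and no parallel or antiparallel elements -/
def IsSimple (L : Set (E → SignType)) : Prop :=
  (∀ e, ∃ X ∈ L, X e ≠ 0) ∧ ∀ e f, e ≠ f → ∃ X ∈ L, X e = 0 ∧ X f ≠ 0

/-- connected: every nonempty proper set of elements and its complement are both met by the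
support of some cocircuit -/
def IsConnected (L : Set (E → SignType)) : Prop :=
  ∀ A : Set E, A.Nonempty → Aᶜ.Nonempty →
    ∃ Y, IsMin L Y ∧ (∃ e ∈ A, Y e ≠ 0) ∧ ∃ e ∈ Aᶜ, Y e ≠ 0

/-- topes: covectors without zero entry -/
def IsTope (L : Set (E → SignType)) (T : E → SignType) : Prop := T ∈ L ∧ ∀ e, T e ≠ 0

/-- the elements such that reversing the sign of `T` there gives another tope -/
def walls [DecidableEq E] (L : Set (E → SignType)) (T : E → SignType) : Set E :=
  {e | IsTope L (Function.update T e (- T e))}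

/-- simplicial topes of an oriented matroid of rank `r` -/
def IsSimplicial [DecidableEq E] (L : Set (E → SignType)) (r : ℕ) (T : E → SignType) : Prop :=
  IsTope L T ∧ (walls L T).ncard = r

/-- the mutations (pairs `{T, -T}` of simplicial topes) adjacent to `e` -/
def mutationsAt [DecidableEq E] (L : Set (E → SignType)) (r : ℕ) (e : E) :
    Set (Set (E → SignType)) :=
  {P | ∃ T, IsSimplicial L r T ∧ e ∈ walls L T ∧ P = {T, fun x => - T x}}

/-- the program `(L, g, f)` is Euclidean: for every cocircuit `Y` with `Y g = +` there is a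
single-element extension `N` (new element `none`), in which the new element is not a loop and
lies in the flat spanned by `g` and `f`, and in which `(Y, 0)` is a cocircuit -/
def ProgramEuclidean (L : Set (E → SignType)) (g f : E) : Prop :=
  ∀ Y, IsMin L Y → Y g = 1 → ∃ N : Set (Option E → SignType), IsOM N ∧
    (∀ X : E → SignType, X ∈ L ↔ ∃ X' ∈ N, ∀ e, X' (some e) = X e) ∧
    (∃ X ∈ N, X none ≠ 0) ∧ (∀ X ∈ N, X (some g) = 0 → X (some f) = 0 → X none = 0) ∧
    IsMin N (fun o => Option.elim o 0 Y)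

/-- Euclidean oriented matroids: all programs `(L, g, f)` with `g ≠ f`, `g` not a coloop, are
Euclidean -/
def IsEuclidean (L : Set (E → SignType)) : Prop :=
  ∀ g f, g ≠ f → (¬ ∃ X ∈ L, X g ≠ 0 ∧ ∀ e, e ≠ g → X e = 0) → ProgramEuclidean L g f

end defs

section general

variable {E : Type*}

/-- a cocircuit extended by `0` is a cocircuit -/
theorem isMin_ext {L : Set (E → SignType)} {N : Set (Option E → SignType)}
    (hdel : ∀ X : E → SignType, X ∈ L ↔ ∃ X' ∈ N, ∀ e, X' (some e) = X e)
    {Y : E → SignType} (hY : IsMin L Y) (hN : (fun o => Option.elim o 0 Y) ∈ N) :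
    IsMin N (fun o => Option.elim o 0 Y) := by
  refine ⟨hN, ?_, ?_⟩
  · obtain ⟨e, he⟩ := hY.2.1
    exact ⟨some e, he⟩
  · rintro X hX ⟨o, ho⟩ hs o' ho'
    have hXn : X none = 0 := hs none rfl
    have h1 : (fun e => X (some e)) ∈ L := (hdel _).2 ⟨X, hX, fun e => rfl⟩
    have h2 : ∃ e, X (some e) ≠ 0 := by
      cases o with
      | none => exact absurd hXn ho
      | some e => exact ⟨e, ho⟩
    cases o' with
    | none => rfl
    | some e => exact hY.2.2 _ h1 h2 (fun e he => hs (some e) he) e ho'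

/-- the extension by an element parallel to `f` -/
theorem isOM_par {L : Set (E → SignType)} (hL : IsOM L) (f : E) :
    IsOM {X : Option E → SignType | (fun e => X (some e)) ∈ L ∧ X none = X (some f)} where
  zero := ⟨hL.zero, rfl⟩
  neg X hX := by
    refine ⟨hL.neg _ hX.1, ?_⟩
    change - X none = - X (some f)
    rw [hX.2]
  comp X hX Y hY := by
    refine ⟨hL.comp _ hX.1 _ hY.1, ?_⟩
    unfold comp
    rw [hX.2, hY.2]
  elim X hX Y hY o ho := by
    have hs : ∀ o, ∃ e, (X o = X (some e) ∧ Y o = Y (some e)) ∧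
        ∀ Z : Option E → SignType, Z none = Z (some f) → Z o = Z (some e) := by
      intro o
      cases o with
      | none => exact ⟨f, ⟨hX.2, hY.2⟩, fun Z hZ => hZ⟩
      | some e => exact ⟨e, ⟨rfl, rfl⟩, fun Z _ => rfl⟩
    obtain ⟨e, ⟨h1, h2⟩, h3⟩ := hs o
    obtain ⟨Z, hZ, hZe, hZf⟩ := hL.elim _ hX.1 _ hY.1 e (by
      unfold Pool.Agent.R138.Om.Sep at ho ⊢
      rw [h1, h2] at ho
      exact ho)
    refine ⟨fun o => o.elim (Z f) Z, ⟨hZ, rfl⟩, ?_, ?_⟩
    · exact (h3 (fun o => o.elim (Z f) Z) rfl).trans hZe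
    · intro o' ho'
      obtain ⟨e', ⟨h1', h2'⟩, h3'⟩ := hs o'
      have h4 := h3' (fun o => o.elim (Z f) Z) rfl
      beta_reduce at h4
      have h5 := hZf e' (by
        intro h
        apply ho'
        unfold Pool.Agent.R138.Om.Sep at h ⊢
        rw [h1', h2']
        exact h)
      change Option.elim o' (Z f) Z = _
      rw [h4]
      change Z e' = _
      rw [h5]
      unfold comp
      rw [h1', h2']

end general

theorem euclidean_chi : IsEuclidean (Vset chi) := by
  intro g f hgf _ Y hY hYg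
  by_cases hYf : Y f = 0
  · have hdel : ∀ X : Fin 10 → SignType, X ∈ Vset chi ↔
        ∃ X' ∈ {X : Option (Fin 10) → SignType |
          (fun e => X (some e)) ∈ Vset chi ∧ X none = X (some f)}, ∀ e, X' (some e) = X e := by
      intro X
      constructor
      · intro hX
        exact ⟨fun o => o.elim (X f) X, ⟨hX, rfl⟩, fun e => rfl⟩
      · rintro ⟨X', hX', h⟩
        have : X = fun e => X' (some e) := funext fun e => (h e).symm
        rw [this]; exact hX'.1
    have hYN : (fun o => Option.elim o 0 Y) ∈ {X : Option (Fin 10) → SignType |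
          (fun e => X (some e)) ∈ Vset chi ∧ X none = X (some f)} := ⟨hY.1, hYf.symm⟩
    refine ⟨_, isOM_par isOM_chi f, hdel, ?_, ?_, isMin_ext hdel hY hYN⟩
    · obtain ⟨X, hX, hXf⟩ : ∃ X ∈ Vset chi, X f ≠ 0 := by
        have key : ∀ f, ∃ p ∈ [(864, 128), (23, 8)], sv p.1 p.2 f ≠ 0 := by decide
        obtain ⟨p, hp, hpf⟩ := key f
        refine ⟨sv p.1 p.2, ?_, hpf⟩
        rw [mem_iff]
        have : ∀ p ∈ [(864, 128), (23, 8)],
            inB (msk 1 (sv p.1 p.2)) (msk (-1) (sv p.1 p.2)) = true := by decide +kernel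
        exact this p hp
      exact ⟨fun o => o.elim (X f) X, ⟨hX, rfl⟩, hXf⟩
    · rintro X ⟨_, hX⟩ _ h2
      rw [hX, h2]
  · have hYg' : Y g ≠ 0 := by rw [hYg]; decide
    rcases lt_or_gt_of_ne hgf with h | h
    · obtain ⟨d, h1, h2, rfl, rfl⟩ := sweeps g f h
      obtain ⟨N, a1, a2, a3, a4, a5⟩ := SD.ext_V h1 h2 chi_anti hY hYg' hYf
      exact ⟨N, a1, a2, a3, a4, isMin_ext a2 hY a5⟩
    · obtain ⟨d, h1, h2, rfl, rfl⟩ := sweeps f g h
      obtain ⟨N, a1, a2, a3, a4, a5⟩ := SD.ext_V h1 h2 chi_anti hY hYf hYg'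
      exact ⟨N, a1, a2, a3, fun X hX b1 b2 => a4 X hX b2 b1, isMin_ext a2 hY a5⟩

theorem mem_sv : ∀ p ∈ [(5, 10), (5, 18), (5, 34), (5, 66), (5, 130), (5, 258), (5, 514),
    (16, 104), (128, 832), (864, 128), (23, 8), (792, 128), (550, 64), (129, 320), (164, 16),
    (522, 320)], sv p.1 p.2 ∈ Vset chi := by
  intro p hp
  rw [mem_iff]
  have : ∀ p ∈ [(5, 10), (5, 18), (5, 34), (5, 66), (5, 130), (5, 258), (5, 514),
    (16, 104), (128, 832), (864, 128), (23, 8), (792, 128), (550, 64), (129, 320), (164, 16),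
    (522, 320)], inB (msk 1 (sv p.1 p.2)) (msk (-1) (sv p.1 p.2)) = true := by decide +kernel
  exact this p hp

theorem rank_chi : HasRank (Vset chi) 7 := by
  constructor
  · refine ⟨{3, 4, 5, 6, 7, 8, 9}, ?_, by decide⟩
    intro e he
    have key : ∀ e ∈ ({3, 4, 5, 6, 7, 8, 9} : Finset (Fin 10)),
        ∃ p ∈ [(5, 10), (5, 18), (5, 34), (5, 66), (5, 130), (5, 258), (5, 514)],
          sv p.1 p.2 e ≠ 0 ∧ ∀ f ∈ ({3, 4, 5, 6, 7, 8, 9} : Finset (Fin 10)),
            f ≠ e → sv p.1 p.2 f = 0 := by decide +kernel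
    obtain ⟨p, hp, h1, h2⟩ := key e he
    refine ⟨_, mem_sv p ?_, h1, h2⟩
    revert hp
    generalize p = q
    intro hq
    simp only [List.mem_cons, List.not_mem_nil, or_false] at hq ⊢
    tauto
  · intro I hI
    by_contra hcard
    push Not at hcard
    have h1 : Iᶜ.card ≤ 2 := by
      rw [Finset.card_compl, Fintype.card_fin]; omega
    obtain ⟨B, hB1, _, hB2⟩ := Finset.exists_subsuperset_card_eq (Finset.subset_univ Iᶜ) h1
      (by rw [Finset.card_univ, Fintype.card_fin]; decide)
    obtain ⟨a, b, hab, rfl⟩ := Finset.card_eq_two.1 hB2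
    obtain ⟨e, he⟩ := chi_basis a b hab
    have hea : e ≠ a := by rintro rfl; exact he (chi_self _ _).1
    have heb : e ≠ b := by rintro rfl; exact he (chi_self _ _).2
    have hmem : ∀ x, x ≠ a → x ≠ b → x ∈ I := by
      intro x hxa hxb
      by_contra hx
      have := hB1 (Finset.mem_compl.2 hx)
      rw [Finset.mem_insert, Finset.mem_singleton] at this
      tauto
    obtain ⟨X, hX, hXe, hXf⟩ := hI e (hmem e hea heb)
    apply hXe
    refine no_single hX hab (fun f hf hXf0 => ?_) he
    by_cases hfa : f = a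
    · subst hfa; exact (chi_self _ _).1
    · by_cases hfb : f = b
      · subst hfb; exact (chi_self _ _).2
      · exact absurd (hXf f (hmem f hfa hfb) hf) hXf0

theorem simple_chi : IsSimple (Vset chi) := by
  have key : ∀ e f : Fin 10, e ≠ f → ∃ p ∈ [(864, 128), (23, 8), (792, 128), (550, 64),
      (129, 320), (164, 16), (522, 320)], sv p.1 p.2 e = 0 ∧ sv p.1 p.2 f ≠ 0 := by
    decide +kernel
  have key2 : ∀ e f : Fin 10, e ≠ f → ∃ X ∈ Vset chi, X e = 0 ∧ X f ≠ 0 := by
    intro e f hef
    obtain ⟨p, hp, h1, h2⟩ := key e f hef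
    refine ⟨_, mem_sv p ?_, h1, h2⟩
    simp only [List.mem_cons, List.not_mem_nil, or_false] at hp ⊢
    tauto
  refine ⟨fun e => ?_, key2⟩
  by_cases he : e = 0
  · obtain ⟨X, hX, _, h⟩ := key2 1 e (by rw [he]; decide)
    exact ⟨X, hX, h⟩
  · obtain ⟨X, hX, _, h⟩ := key2 0 e (Ne.symm he)
    exact ⟨X, hX, h⟩

theorem cocircuit_chi : ∀ p ∈ [(5, 10), (16, 104), (128, 832)],
    IsMin (Vset chi) (sv p.1 p.2) := by
  intro p hp
  apply isMin_of
  · apply mem_sv
    simp only [List.mem_cons, List.not_mem_nil, or_false] at hp ⊢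
    tauto
  · have : ∀ p ∈ [(5, 10), (16, 104), (128, 832)], ∃ e, sv p.1 p.2 e ≠ 0 := by decide +kernel
    exact this p hp
  · have : ∀ p ∈ [(5, 10), (16, 104), (128, 832)], ∀ a, sv p.1 p.2 a ≠ 0 → ∀ b,
        sv p.1 p.2 b ≠ 0 → b ≠ a → ∃ c d, c ≠ d ∧ chi c d b ≠ 0 ∧
          ∀ f, sv p.1 p.2 f ≠ 0 → f ≠ a → f ≠ b → chi c d f = 0 := by decide +kernel
    exact this p hp

theorem connected_chi : IsConnected (Vset chi) := by
  rintro A ⟨a, ha⟩ ⟨b, hb⟩
  by_contra hcon
  push Not at hcon
  have key : ∀ p ∈ [(5, 10), (16, 104), (128, 832)], ∀ x y, sv p.1 p.2 x ≠ 0 →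
      sv p.1 p.2 y ≠ 0 → (x ∈ A ↔ y ∈ A) := by
    intro p hp x y hx hy
    constructor
    · intro hxA
      by_contra hyA
      exact hy (hcon _ (cocircuit_chi p hp) ⟨x, hxA, hx⟩ y hyA)
    · intro hyA
      by_contra hxA
      exact hx (hcon _ (cocircuit_chi p hp) ⟨y, hyA, hy⟩ x hxA)
  have h3 : ∀ x : Fin 10, (x ∈ A ↔ (3 : Fin 10) ∈ A) := by
    have c1 : ∀ x : Fin 10, sv 5 10 x ≠ 0 → (x ∈ A ↔ (3 : Fin 10) ∈ A) := fun x hx =>
      key (5, 10) (by decide) x 3 hx (by decide +kernel)
    have c2 : ∀ x : Fin 10, sv 16 104 x ≠ 0 → (x ∈ A ↔ (3 : Fin 10) ∈ A) := fun x hx =>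
      key (16, 104) (by decide) x 3 hx (by decide +kernel)
    have c3 : ∀ x : Fin 10, sv 128 832 x ≠ 0 → (x ∈ A ↔ (3 : Fin 10) ∈ A) := fun x hx =>
      (key (128, 832) (by decide) x 6 hx (by decide +kernel)).trans (c2 6 (by decide +kernel))
    intro x
    have : ∀ x : Fin 10, sv 5 10 x ≠ 0 ∨ sv 16 104 x ≠ 0 ∨ sv 128 832 x ≠ 0 := by
      decide +kernel
    rcases this x with h | h | h
    · exact c1 x h
    · exact c2 x h
    · exact c3 x h
  exact hb ((h3 b).2 ((h3 a).1 ha))

theorem tope_neg {L : Set (Fin 10 → SignType)} (hL : IsOM L) {T : Fin 10 → SignType}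
    (hT : IsTope L T) : IsTope L (fun e => - T e) := by
  refine ⟨hL.neg _ hT.1, fun e => ?_⟩
  have := hT.2 e
  beta_reduce
  revert this
  generalize T e = a
  revert a; decide

theorem msk_neg {T : Fin 10 → SignType} (hT : ∀ e, T e ≠ 0) :
    msk (-1) T = 1023 ^^^ msk 1 T := by
  apply Nat.eq_of_testBit_eq
  intro i
  rw [Nat.testBit_xor, show 1023 = 2 ^ 10 - 1 by norm_num, Nat.testBit_two_pow_sub_one]
  by_cases hi : i < 10
  · have h1 := msk_bit 1 T ⟨i, hi⟩
    have h2 := msk_bit (-1) T ⟨i, hi⟩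
    change (msk 1 T).testBit i = _ at h1
    change (msk (-1) T).testBit i = _ at h2
    rw [h1, h2]
    have h3 := hT ⟨i, hi⟩
    simp only [hi, decide_true]
    revert h3
    generalize T ⟨i, hi⟩ = a
    revert a; decide
  · rw [msk_bit_ge _ _ (by omega), msk_bit_ge _ _ (by omega)]
    simp [hi]

theorem tope_iff {T : Fin 10 → SignType} (hT : ∀ e, T e ≠ 0) :
    IsTope (Vset chi) T ↔ TMN.testBit (msk 1 T) = true := by
  rw [tope_check' (msk_lt _ _), ← msk_neg hT, ← mem_iff]
  exact ⟨fun h => h.1, fun h => ⟨h, hT⟩⟩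

theorem update_ne {T : Fin 10 → SignType} (hT : ∀ e, T e ≠ 0) (e : Fin 10) :
    ∀ f, Function.update T e (- T e) f ≠ 0 := by
  intro f
  by_cases hf : f = e
  · subst hf
    rw [Function.update_self]
    have := hT f
    revert this
    generalize T f = a
    revert a; decide
  · rw [Function.update_of_ne hf]; exact hT f

theorem msk_update {T : Fin 10 → SignType} (hT : ∀ e, T e ≠ 0) (e : Fin 10) :
    msk 1 (Function.update T e (- T e)) = msk 1 T ^^^ 2 ^ e.val := by
  apply Nat.eq_of_testBit_eq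
  intro i
  rw [Nat.testBit_xor, Nat.testBit_two_pow]
  by_cases hi : i < 10
  · have h1 := msk_bit 1 T ⟨i, hi⟩
    have h2 := msk_bit 1 (Function.update T e (- T e)) ⟨i, hi⟩
    change (msk 1 T).testBit i = _ at h1
    change (msk 1 (Function.update T e (- T e))).testBit i = _ at h2
    rw [h1, h2]
    by_cases hei : e.val = i
    · subst hei
      have : (⟨e.val, hi⟩ : Fin 10) = e := rfl
      rw [this, Function.update_self]
      have h3 := hT e
      simp only [decide_true]
      revert h3
      generalize T e = a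
      revert a; decide
    · rw [Function.update_of_ne (by rintro rfl; exact hei rfl)]
      simp [hei]
  · rw [msk_bit_ge _ _ (by omega), msk_bit_ge _ _ (by omega)]
    have := e.isLt
    simp only [show ¬ e.val = i by omega, decide_false]
    rfl

theorem walls_eq {T : Fin 10 → SignType} (hT : ∀ e, T e ≠ 0) :
    walls (Vset chi) T = ↑(wl (msk 1 T)) := by
  ext e
  unfold walls wl
  rw [Finset.coe_filter]
  simp only [Set.mem_ofPred_eq, Finset.mem_univ, true_and]
  rw [tope_iff (update_ne hT e), msk_update hT]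

/-- the tope with a given mask -/
def dec (x : ℕ) : Fin 10 → SignType := fun e => if x.testBit e.val = true then 1 else -1

theorem dec_msk {T : Fin 10 → SignType} (hT : ∀ e, T e ≠ 0) : dec (msk 1 T) = T := by
  funext e
  unfold dec
  rw [msk_bit]
  have := hT e
  revert this
  generalize T e = a
  revert a; decide

theorem few_chi : (mutationsAt (Vset chi) 7 0).ncard ≤ 6 := by
  classical
  set F : Finset (Set (Fin 10 → SignType)) :=
    ([59, 267, 289, 447, 505, 937] : List ℕ).toFinset.image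
      (fun x => ({dec x, fun e => - dec x e} : Set (Fin 10 → SignType))) with hF
  have hsub : mutationsAt (Vset chi) 7 0 ⊆ ↑F := by
    rintro P ⟨T, ⟨hT, hc⟩, h0, rfl⟩
    rw [walls_eq hT.2] at hc h0
    rw [Set.ncard_coe_finset] at hc
    have hor := mut_check' (msk_lt 1 T) ((tope_iff hT.2).1 hT) h0 hc
    rw [hF, Finset.coe_image]
    rcases hor with h | h
    · refine ⟨msk 1 T, by rw [Finset.mem_coe, List.mem_toFinset]; exact h, ?_⟩
      beta_reduce
      rw [dec_msk hT.2]
    · refine ⟨1023 ^^^ msk 1 T, by rw [Finset.mem_coe, List.mem_toFinset]; exact h, ?_⟩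
      beta_reduce
      have hT' := tope_neg isOM_chi hT
      have h1 : msk 1 (fun e => - T e) = 1023 ^^^ msk 1 T := by
        rw [← msk_neg hT.2]
        unfold msk
        congr 1
        funext e
        beta_reduce
        generalize T e = a
        revert a; decide
      rw [← h1, dec_msk hT'.2]
      simp only [neg_neg]
      exact Set.pair_comm _ _
  calc (mutationsAt (Vset chi) 7 0).ncard ≤ (↑F : Set (Set (Fin 10 → SignType))).ncard :=
        Set.ncard_le_ncard hsub (Finset.finite_toSet F)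
    _ = F.card := Set.ncard_coe_finset F
    _ ≤ ([59, 267, 289, 447, 505, 937] : List ℕ).toFinset.card := Finset.card_image_le
    _ ≤ 6 := by decide

/-- There is a connected simple Euclidean oriented matroid of rank `7` (on `10` elements) with an
element adjacent to fewer than `7` mutations. -/
theorem result : ∃ L : Set (Fin 10 → SignType), IsOM L ∧ HasRank L 7 ∧ IsSimple L ∧
    IsConnected L ∧ IsEuclidean L ∧ ∃ e, (mutationsAt L 7 e).ncard < 7 :=
  ⟨Vset chi, isOM_chi, rank_chi, simple_chi, connected_chi, euclidean_chi, 0,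
    by have := few_chi; omega⟩

end Pool.Agent.Results.MP_c821f2_co.FewMutations
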